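import Pool.Agent.R453.DSp.Upper

/-!
# Choice of parameters
-/

namespace Pool.Agent.R453.DSp

open Set Filter Topology MeasureTheory
open scoped NNReal ENNReal

theorem coe_rpow' (r s : ℝ≥0) : ((r : ℝ≥0∞)) ^ (s : ℝ) = ENNReal.ofReal ((r : ℝ) ^ (s : ℝ)) := by
  rw [← ENNReal.ofReal_rpow_of_nonneg (NNReal.coe_nonneg r) (NNReal.coe_nonneg s),
    ENNReal.ofReal_coe_nnreal]

theorem pow_id {a : ℝ} (ha : 0 < a) (q : ℕ) (s : ℝ) :
    (1 / (a ^ q) ^ 2) ^ s = a ^ (-(2 * (q : ℝ) * s)) := by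
  rw [one_div, Real.inv_rpow (by positivity), ← pow_mul, ← Real.rpow_natCast, ← Real.rpow_mul ha.le,
    Real.rpow_neg ha.le]
  congr 2
  push_cast
  ring

theorem psum_bound (m : ℕ) (hm : 1 ≤ m) (K : ℕ) :
    ∑ n ∈ Finset.range K, 1 / ((m : ℝ) + 1 + n) ^ 2 ≤ 1 / m - 1 / ((m : ℝ) + K) := by
  have hmR : (1 : ℝ) ≤ m := by exact_mod_cast hm
  induction K with
  | zero => simp
  | succ K ih =>
    rw [Finset.sum_range_succ]
    have hK : (0 : ℝ) ≤ K := Nat.cast_nonneg K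
    have h1 : 1 / ((m : ℝ) + 1 + K) ^ 2 ≤ 1 / ((m : ℝ) + K) - 1 / ((m : ℝ) + (K + 1 : ℕ)) := by
      push_cast
      rw [div_sub_div _ _ (by positivity) (by positivity), div_le_div_iff₀ (by positivity)
        (by positivity)]
      nlinarith
    linarith

theorem tail_term {m : ℕ} (hm : 1 ≤ m) {t : ℝ} (ht : 3 ≤ t) (n : ℕ) :
    ((m : ℝ) + 1 + n) ^ (-t) ≤ ((m : ℝ) + 1) ^ (2 - t) * (1 / ((m : ℝ) + 1 + n) ^ 2) := by
  have hn : (0 : ℝ) ≤ n := Nat.cast_nonneg n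
  have hmR : (1 : ℝ) ≤ m := by exact_mod_cast hm
  have h0 : (0 : ℝ) < (m : ℝ) + 1 + n := by linarith
  have h1 : ((m : ℝ) + 1 + n) ^ (-t) = ((m : ℝ) + 1 + n) ^ (2 - t) *
      (1 / ((m : ℝ) + 1 + n) ^ 2) := by
    rw [one_div, ← Real.rpow_natCast, ← Real.rpow_neg h0.le, ← Real.rpow_add h0]
    congr 1; push_cast; ring
  rw [h1]
  apply mul_le_mul_of_nonneg_right _ (by positivity)
  exact Real.rpow_le_rpow_of_nonpos (by linarith) (by linarith) (by linarith)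

theorem sum_tail {m : ℕ} (hm : 1 ≤ m) {t : ℝ} (ht : 3 ≤ t) :
    Summable (fun n : ℕ => ((m : ℝ) + 1 + n) ^ (-t)) ∧
      ∑' n : ℕ, ((m : ℝ) + 1 + n) ^ (-t) ≤ ((m : ℝ) + 1) ^ (2 - t) / m := by
  have hmR : (1 : ℝ) ≤ m := by exact_mod_cast hm
  have hnn : ∀ n : ℕ, 0 ≤ ((m : ℝ) + 1 + n) ^ (-t) := fun n => by positivity
  have hb : ∀ K : ℕ, ∑ n ∈ Finset.range K, ((m : ℝ) + 1 + n) ^ (-t) ≤
      ((m : ℝ) + 1) ^ (2 - t) / m := by
    intro K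
    calc ∑ n ∈ Finset.range K, ((m : ℝ) + 1 + n) ^ (-t)
        ≤ ∑ n ∈ Finset.range K, ((m : ℝ) + 1) ^ (2 - t) * (1 / ((m : ℝ) + 1 + n) ^ 2) :=
          Finset.sum_le_sum (fun n _ => tail_term hm ht n)
      _ = ((m : ℝ) + 1) ^ (2 - t) * ∑ n ∈ Finset.range K, (1 / ((m : ℝ) + 1 + n) ^ 2) := by
          rw [Finset.mul_sum]
      _ ≤ ((m : ℝ) + 1) ^ (2 - t) * (1 / m) := by
          apply mul_le_mul_of_nonneg_left _ (by positivity)
          have h1 := psum_bound m hm K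
          have h2 : (0 : ℝ) ≤ 1 / ((m : ℝ) + K) := by positivity
          linarith
      _ = _ := by ring
  exact ⟨summable_of_sum_range_le hnn hb, Real.tsum_le_of_sum_range_le hnn hb⟩

theorem sumA {q : ℕ} {s : ℝ≥0} (ht : 3 ≤ 2 * (q : ℝ) * s) :
    ∑' n : ℕ, ((((1 / (((n : ℝ≥0) + 2) ^ q) ^ 2 : ℝ≥0)) : ℝ≥0∞)) ^ (s : ℝ) < 1 := by
  have h1 : ∀ n : ℕ, ((((1 / (((n : ℝ≥0) + 2) ^ q) ^ 2 : ℝ≥0)) : ℝ≥0∞)) ^ (s : ℝ) =
      ENNReal.ofReal ((((1 : ℕ) : ℝ) + 1 + n) ^ (-(2 * (q : ℝ) * s))) := by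
    intro n
    rw [coe_rpow']
    congr 1
    push_cast
    rw [pow_id (by positivity)]
    congr 1; ring
  simp_rw [h1]
  obtain ⟨h2, h3⟩ := sum_tail (m := 1) le_rfl ht
  rw [← ENNReal.ofReal_tsum_of_nonneg (fun n => by positivity) h2]
  have h4 : ((((1 : ℕ) : ℝ) + 1)) ^ (2 - 2 * (q : ℝ) * s) / ((1 : ℕ) : ℝ) ≤ 1 / 2 := by
    have h5 : (((1 : ℕ) : ℝ) + 1) = 2 := by norm_num
    rw [h5]
    have h6 : (2 : ℝ) ^ (2 - 2 * (q : ℝ) * s) ≤ (2 : ℝ) ^ (-1 : ℝ) :=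
      Real.rpow_le_rpow_of_exponent_le (by norm_num) (by linarith)
    rw [Real.rpow_neg_one] at h6
    simpa using h6
  rw [ENNReal.ofReal_lt_one]
  exact lt_of_le_of_lt (h3.trans h4) (by norm_num)

theorem geom_bound {s : ℝ} (hs : 0 < s) (hs1 : s ≤ 1) :
    Summable (fun L : ℕ => (2 * (1 / 2 : ℝ) ^ L) ^ s) ∧
      ∑' L : ℕ, (2 * (1 / 2 : ℝ) ^ L) ^ s ≤ 4 / s := by
  have h1 : ∀ L : ℕ, (2 * (1 / 2 : ℝ) ^ L) ^ s = 2 ^ s * ((1 / 2 : ℝ) ^ s) ^ L := by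
    intro L
    rw [Real.mul_rpow (by norm_num) (by positivity), ← Real.rpow_natCast, ← Real.rpow_mul
      (by norm_num), mul_comm (L : ℝ) s, Real.rpow_mul (by norm_num), Real.rpow_natCast]
  have h2 : (1 / 2 : ℝ) ^ s ≤ 1 - s / 2 := by
    have := rpow_one_add_le_one_add_mul_self (s := -(1 / 2)) (by norm_num) hs.le hs1
    have h3 : (1 : ℝ) + -(1 / 2) = 1 / 2 := by norm_num
    rw [h3] at this
    linarith
  have h3 : (0 : ℝ) ≤ (1 / 2 : ℝ) ^ s := by positivity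
  have h4 : (1 / 2 : ℝ) ^ s < 1 := by linarith
  simp_rw [h1]
  refine ⟨(summable_geometric_of_lt_one h3 h4).mul_left _, ?_⟩
  rw [tsum_mul_left, tsum_geometric_of_lt_one h3 h4]
  have h5 : (2 : ℝ) ^ s ≤ 2 := by
    calc (2 : ℝ) ^ s ≤ (2 : ℝ) ^ (1 : ℝ) := Real.rpow_le_rpow_of_exponent_le (by norm_num) hs1
      _ = 2 := Real.rpow_one 2
  have h6 : (1 - (1 / 2 : ℝ) ^ s)⁻¹ ≤ (s / 2)⁻¹ := by
    apply inv_anti₀ (by positivity); linarith
  calc (2 : ℝ) ^ s * (1 - (1 / 2 : ℝ) ^ s)⁻¹ ≤ 2 * (s / 2)⁻¹ :=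
        mul_le_mul h5 h6 (by rw [inv_nonneg]; linarith) (by norm_num)
    _ = 4 / s := by field_simp; norm_num

theorem sumB {q m : ℕ} (hm : 1 ≤ m) {s : ℝ≥0} (hs : 0 < s) (hs1 : (s : ℝ) ≤ 1)
    (ht : 3 ≤ 2 * (q : ℝ) * s)
    (hb : 4 / (s : ℝ) * (((m : ℝ) + 1) ^ (2 - 2 * (q : ℝ) * s) / m) < 1) :
    ∑' p : ℕ × ℕ, (((((2 : ℝ≥0) * (1 / 2) ^ p.1) *
      (1 / (((m : ℝ≥0) + 1 + p.2) ^ q) ^ 2) : ℝ≥0) : ℝ≥0∞)) ^ (s : ℝ) < 1 := by
  have hsR : (0 : ℝ) < s := by exact_mod_cast hs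
  have h1 : ∀ L n : ℕ, (((((2 : ℝ≥0) * (1 / 2) ^ L) *
      (1 / (((m : ℝ≥0) + 1 + n) ^ q) ^ 2) : ℝ≥0) : ℝ≥0∞)) ^ (s : ℝ) =
      ENNReal.ofReal ((2 * (1 / 2 : ℝ) ^ L) ^ (s : ℝ)) *
        ENNReal.ofReal (((m : ℝ) + 1 + n) ^ (-(2 * (q : ℝ) * s))) := by
    intro L n
    rw [coe_rpow', ← ENNReal.ofReal_mul (by positivity)]
    congr 1
    push_cast
    rw [Real.mul_rpow (by positivity) (by positivity), pow_id (by positivity)]
  rw [ENNReal.tsum_prod (f := fun L n : ℕ => (((((2 : ℝ≥0) * (1 / 2) ^ L) *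
      (1 / (((m : ℝ≥0) + 1 + n) ^ q) ^ 2) : ℝ≥0) : ℝ≥0∞)) ^ (s : ℝ))]
  simp_rw [h1, ENNReal.tsum_mul_left]
  rw [ENNReal.tsum_mul_right]
  obtain ⟨h2, h3⟩ := sum_tail hm ht
  obtain ⟨h4, h5⟩ := geom_bound hsR hs1
  rw [← ENNReal.ofReal_tsum_of_nonneg (fun n => by positivity) h2,
    ← ENNReal.ofReal_tsum_of_nonneg (fun n => by positivity) h4,
    ← ENNReal.ofReal_mul (tsum_nonneg (fun n => by positivity)), ENNReal.ofReal_lt_one]
  refine lt_of_le_of_lt ?_ hb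
  exact mul_le_mul h5 h3 (tsum_nonneg (fun n => by positivity)) (by positivity)

/-! ### Asymptotics -/

theorem log_pos_of {m : ℕ} (hm : 2 ≤ m) {c : ℝ} (hc : 0 ≤ c) : 0 < Real.log ((m : ℝ) + c) := by
  apply Real.log_pos
  have : (2 : ℝ) ≤ m := by exact_mod_cast hm
  linarith

theorem log_ge {m : ℕ} (hm : 2 ≤ m) {c : ℝ} (hc : 0 ≤ c) : 1 / 2 ≤ Real.log ((m : ℝ) + c) := by
  have h1 : (2 : ℝ) ≤ m := by exact_mod_cast hm
  have h2 : Real.log 2 ≤ Real.log ((m : ℝ) + c) := Real.log_le_log (by norm_num) (by linarith)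
  have := Real.log_two_gt_d9
  linarith

/-- Lower bound parameters are admissible for all large `q`. -/
theorem low_ev (m : ℕ) (hm : 2 ≤ m) : ∀ᶠ q : ℕ in atTop,
    2 ≤ ⌊(Real.log q / (2 * q * Real.log ((m : ℝ) + 1 / 3)))⁻¹⌋₊ ∧
    ((4 : ℝ) ^ ⌊(Real.log q / (2 * q * Real.log ((m : ℝ) + 1 / 3)))⁻¹⌋₊ *
      ((((m ^ q : ℕ)) : ℝ) + 1) ^ 2) ^ (Real.log q / (2 * q * Real.log ((m : ℝ) + 1 / 3))) ≤
      (⌊(Real.log q / (2 * q * Real.log ((m : ℝ) + 1 / 3)))⁻¹⌋₊ : ℝ) := by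
  set lam := Real.log ((m : ℝ) + 1 / 3) with hlam
  have hmR : (2 : ℝ) ≤ m := by exact_mod_cast hm
  have hlam0 : 0 < lam := log_pos_of hm (by norm_num)
  have hlam1 : 1 / 2 ≤ lam := log_ge hm (by norm_num)
  set γ := Real.log m / lam with hγ
  have hγ1 : γ < 1 := by
    rw [hγ, div_lt_one hlam0]
    exact Real.log_lt_log (by linarith) (by linarith)
  have hγ0 : 0 < γ := div_pos (Real.log_pos (by linarith)) hlam0
  -- `log x ≤ x ^ (1 - γ) / 40` eventually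
  have h1 : ∀ᶠ x : ℝ in atTop, Real.log x ≤ 1 / 40 * x ^ (1 - γ) := by
    have h2 := (isLittleO_log_rpow_atTop (by linarith : 0 < 1 - γ)).bound
      (by norm_num : (0 : ℝ) < 1 / 40)
    filter_upwards [h2, eventually_ge_atTop (1 : ℝ)] with x hx hx1
    rw [Real.norm_of_nonneg (Real.log_nonneg hx1), Real.norm_of_nonneg (by positivity)] at hx
    exact hx
  have h2 : ∀ᶠ q : ℕ in atTop, Real.log q ≤ 1 / 40 * (q : ℝ) ^ (1 - γ) :=
    tendsto_natCast_atTop_atTop.eventually h1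
  filter_upwards [h2, eventually_ge_atTop 3] with q hq hq3
  have hqR : (3 : ℝ) ≤ q := by exact_mod_cast hq3
  have hq0 : (0 : ℝ) < q := by linarith
  have hlog : 1 ≤ Real.log q := by
    rw [Real.le_log_iff_exp_le hq0]
    have := Real.exp_one_lt_d9
    linarith
  set s := Real.log q / (2 * q * lam) with hs
  have hs0 : 0 < s := by rw [hs]; positivity
  set N := ⌊s⁻¹⌋₊ with hN
  -- the main estimate `16 q^γ ≤ s⁻¹ - 1`
  have h3 : (16 * (q : ℝ) ^ γ + 1) * Real.log q ≤ q := by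
    have h4 : (1 : ℝ) ≤ (q : ℝ) ^ γ := Real.one_le_rpow (by linarith) hγ0.le
    have h5 : (q : ℝ) ^ γ * (q : ℝ) ^ (1 - γ) = q := by
      rw [← Real.rpow_add hq0]
      simp
    calc (16 * (q : ℝ) ^ γ + 1) * Real.log q ≤ (17 * (q : ℝ) ^ γ) * (1 / 40 * (q : ℝ) ^ (1 - γ)) :=
          mul_le_mul (by linarith) hq (by linarith) (by positivity)
      _ = 17 / 40 * ((q : ℝ) ^ γ * (q : ℝ) ^ (1 - γ)) := by ring
      _ = 17 / 40 * q := by rw [h5]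
      _ ≤ q := by linarith
  have h4 : 16 * (q : ℝ) ^ γ + 1 ≤ s⁻¹ := by
    have h5 : s⁻¹ = (2 * q * lam) / Real.log q := by rw [hs, inv_div]
    rw [h5, le_div_iff₀ (by linarith)]
    refine h3.trans ?_
    nlinarith
  have h5 : 16 * (q : ℝ) ^ γ ≤ N := by
    have := Nat.lt_floor_add_one s⁻¹
    rw [← hN] at this
    linarith
  have h6 : (1 : ℝ) ≤ (q : ℝ) ^ γ := Real.one_le_rpow (by linarith) hγ0.le
  refine ⟨?_, ?_⟩
  · have : (2 : ℝ) ≤ N := by linarith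
    exact_mod_cast this
  · refine le_trans ?_ h5
    have hNs : (N : ℝ) * s ≤ 1 := by
      have h7 : (N : ℝ) ≤ s⁻¹ := Nat.floor_le (inv_nonneg.2 hs0.le)
      calc (N : ℝ) * s ≤ s⁻¹ * s := mul_le_mul_of_nonneg_right h7 hs0.le
        _ = 1 := inv_mul_cancel₀ hs0.ne'
    have hs1 : s ≤ 1 := by
      have h8 : (2 : ℝ) ≤ s⁻¹ := by linarith
      have h9 : s * 2 ≤ s * s⁻¹ := mul_le_mul_of_nonneg_left h8 hs0.le
      rw [mul_inv_cancel₀ hs0.ne'] at h9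
      linarith
    have h7 : (((m ^ q : ℕ)) : ℝ) + 1 ≤ 2 * (m : ℝ) ^ q := by
      push_cast
      have : (1 : ℝ) ≤ (m : ℝ) ^ q := one_le_pow₀ (by linarith)
      linarith
    have h8 : ((4 : ℝ) ^ N * ((((m ^ q : ℕ)) : ℝ) + 1) ^ 2) ≤
        (4 : ℝ) ^ N * (4 * ((m : ℝ) ^ q) ^ 2) := by
      apply mul_le_mul_of_nonneg_left _ (by positivity)
      calc ((((m ^ q : ℕ)) : ℝ) + 1) ^ 2 ≤ (2 * (m : ℝ) ^ q) ^ 2 :=
            pow_le_pow_left₀ (by positivity) h7 2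
        _ = _ := by ring
    calc ((4 : ℝ) ^ N * ((((m ^ q : ℕ)) : ℝ) + 1) ^ 2) ^ s
        ≤ ((4 : ℝ) ^ N * (4 * ((m : ℝ) ^ q) ^ 2)) ^ s :=
          Real.rpow_le_rpow (by positivity) h8 hs0.le
      _ = ((4 : ℝ) ^ N) ^ s * (4 ^ s * (((m : ℝ) ^ q) ^ 2) ^ s) := by
          rw [Real.mul_rpow (by positivity) (by positivity),
            Real.mul_rpow (by norm_num) (by positivity)]
      _ ≤ 4 * (4 * (q : ℝ) ^ γ) := by
          have e1 : ((4 : ℝ) ^ N) ^ s ≤ 4 := by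
            rw [← Real.rpow_natCast, ← Real.rpow_mul (by norm_num)]
            calc (4 : ℝ) ^ ((N : ℝ) * s) ≤ (4 : ℝ) ^ (1 : ℝ) :=
                  Real.rpow_le_rpow_of_exponent_le (by norm_num) hNs
              _ = 4 := Real.rpow_one 4
          have e2 : (4 : ℝ) ^ s ≤ 4 := by
            calc (4 : ℝ) ^ s ≤ (4 : ℝ) ^ (1 : ℝ) :=
                  Real.rpow_le_rpow_of_exponent_le (by norm_num) hs1
              _ = 4 := Real.rpow_one 4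
          have e3 : (((m : ℝ) ^ q) ^ 2) ^ s = (q : ℝ) ^ γ := by
            rw [← pow_mul, ← Real.rpow_natCast, ← Real.rpow_mul (by linarith),
              Real.rpow_def_of_pos (by linarith), Real.rpow_def_of_pos hq0]
            congr 1
            rw [hs, hγ]
            push_cast
            field_simp
          rw [e3]
          exact mul_le_mul e1 (mul_le_mul_of_nonneg_right e2 (by positivity)) (by positivity)
            (by norm_num)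
      _ = 16 * (q : ℝ) ^ γ := by ring

/-- Upper bound parameters are admissible for all large `q`. -/
theorem up_ev (m : ℕ) (hm : 2 ≤ m) : ∀ᶠ q : ℕ in atTop,
    3 ≤ 2 * (q : ℝ) * (Real.log q / (2 * q * Real.log ((m : ℝ) + 2 / 3))) ∧
    Real.log q / (2 * q * Real.log ((m : ℝ) + 2 / 3)) ≤ 1 ∧
    4 / (Real.log q / (2 * q * Real.log ((m : ℝ) + 2 / 3))) *
      (((m : ℝ) + 1) ^ (2 - 2 * (q : ℝ) * (Real.log q / (2 * q * Real.log ((m : ℝ) + 2 / 3)))) / m)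
      < 1 := by
  set lam := Real.log ((m : ℝ) + 2 / 3) with hlam
  have hmR : (2 : ℝ) ≤ m := by exact_mod_cast hm
  have hlam0 : 0 < lam := log_pos_of hm (by norm_num)
  have hlam1 : 1 / 2 ≤ lam := log_ge hm (by norm_num)
  set γ := Real.log ((m : ℝ) + 1) / lam with hγ
  have hγ1 : 1 < γ := by
    rw [hγ, one_lt_div hlam0]
    exact Real.log_lt_log (by linarith) (by linarith)
  have h1 : Tendsto (fun x : ℝ => 8 * lam * ((m : ℝ) + 1) ^ 2 * x ^ (-(γ - 1))) atTop (𝓝 0) := by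
    have := (tendsto_rpow_neg_atTop (by linarith : 0 < γ - 1)).const_mul
      (8 * lam * ((m : ℝ) + 1) ^ 2)
    rwa [mul_zero] at this
  have h2 : ∀ᶠ q : ℕ in atTop, 8 * lam * ((m : ℝ) + 1) ^ 2 * (q : ℝ) ^ (-(γ - 1)) < 1 :=
    tendsto_natCast_atTop_atTop.eventually (h1.eventually (gt_mem_nhds (by norm_num)))
  have h3 : ∀ᶠ q : ℕ in atTop, 3 * lam ≤ Real.log q :=
    (Real.tendsto_log_atTop.comp tendsto_natCast_atTop_atTop).eventually
      (eventually_ge_atTop (3 * lam))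
  filter_upwards [h2, h3, eventually_ge_atTop 3] with q hq hq3 hq'
  have hqR : (3 : ℝ) ≤ q := by exact_mod_cast hq'
  have hq0 : (0 : ℝ) < q := by linarith
  have hlog : 1 ≤ Real.log q := by
    rw [Real.le_log_iff_exp_le hq0]
    have := Real.exp_one_lt_d9
    linarith
  have ht : 2 * (q : ℝ) * (Real.log q / (2 * q * lam)) = Real.log q / lam := by
    field_simp
  refine ⟨?_, ?_, ?_⟩
  · rw [ht, le_div_iff₀ hlam0]; exact hq3
  · rw [div_le_one (by positivity)]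
    have h4 : Real.log q ≤ q := (Real.log_le_sub_one_of_pos hq0).trans (by linarith)
    nlinarith
  · rw [ht]
    have h4 : ((m : ℝ) + 1) ^ (2 - Real.log q / lam) = ((m : ℝ) + 1) ^ 2 * (q : ℝ) ^ (-γ) := by
      rw [Real.rpow_sub (by linarith), Real.rpow_neg hq0.le, div_eq_mul_inv]
      congr 1
      · norm_num
      · congr 1
        rw [Real.rpow_def_of_pos (by linarith), Real.rpow_def_of_pos hq0]
        congr 1
        rw [hγ]; ring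
    rw [h4]
    have h5 : 4 / (Real.log q / (2 * q * lam)) = 8 * lam * q / Real.log q := by
      field_simp; ring
    rw [h5]
    have h6 : (q : ℝ) * (q : ℝ) ^ (-γ) = (q : ℝ) ^ (-(γ - 1)) := by
      rw [show -(γ - 1) = 1 + -γ by ring, Real.rpow_add hq0, Real.rpow_one]
    calc 8 * lam * q / Real.log q * (((m : ℝ) + 1) ^ 2 * (q : ℝ) ^ (-γ) / m)
        ≤ 8 * lam * q * (((m : ℝ) + 1) ^ 2 * (q : ℝ) ^ (-γ)) := by
          have e1 : 8 * lam * q / Real.log q ≤ 8 * lam * q := div_le_self (by positivity) hlog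
          have e2 : ((m : ℝ) + 1) ^ 2 * (q : ℝ) ^ (-γ) / m ≤
              ((m : ℝ) + 1) ^ 2 * (q : ℝ) ^ (-γ) := div_le_self (by positivity) (by linarith)
          exact mul_le_mul e1 e2 (by positivity) (by positivity)
      _ = 8 * lam * ((m : ℝ) + 1) ^ 2 * ((q : ℝ) * (q : ℝ) ^ (-γ)) := by ring
      _ = 8 * lam * ((m : ℝ) + 1) ^ 2 * (q : ℝ) ^ (-(γ - 1)) := by rw [h6]
      _ < 1 := hq

/-- **Gap theorem.** -/
theorem gap (m : ℕ) (hm : 2 ≤ m) : ∀ᶠ q : ℕ in atTop, ∃ u l : ℝ≥0, u < l ∧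
    (∀ F : Set ℕ, F ⊆ Mq q → (∀ k, 2 ≤ k → k ≤ m → k ^ q ∉ F) → dimH (J F) ≤ u) ∧
    (∀ F : Set ℕ, F ⊆ Mq q → 1 ∉ F → dimH (J F) ≤ u) ∧
    (∀ F : Set ℕ, 1 ∈ F → (∃ k, 2 ≤ k ∧ k ≤ m ∧ k ^ q ∈ F) → (l : ℝ≥0∞) ≤ dimH (J F)) := by
  filter_upwards [low_ev m hm, up_ev m hm, eventually_ge_atTop 3] with q hlow hup hq3
  have hqR : (3 : ℝ) ≤ q := by exact_mod_cast hq3
  have hq0 : (0 : ℝ) < q := by linarith
  have hlogq : 0 < Real.log q := Real.log_pos (by linarith)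
  have hl1 : 0 < Real.log ((m : ℝ) + 1 / 3) := log_pos_of hm (by norm_num)
  have hl2 : 0 < Real.log ((m : ℝ) + 2 / 3) := log_pos_of hm (by norm_num)
  have hmR : (2 : ℝ) ≤ m := by exact_mod_cast hm
  set sl : ℝ := Real.log q / (2 * q * Real.log ((m : ℝ) + 1 / 3)) with hsl
  set su : ℝ := Real.log q / (2 * q * Real.log ((m : ℝ) + 2 / 3)) with hsu
  have hsl0 : 0 < sl := by rw [hsl]; positivity
  have hsu0 : 0 < su := by rw [hsu]; positivity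
  have hlt : su < sl := by
    rw [hsl, hsu]
    apply div_lt_div_of_pos_left hlogq (by positivity)
    apply mul_lt_mul_of_pos_left _ (by positivity)
    exact Real.log_lt_log (by linarith) (by linarith)
  obtain ⟨hN, hR⟩ := hlow
  obtain ⟨hu1, hu2, hu3⟩ := hup
  refine ⟨⟨su, hsu0.le⟩, ⟨sl, hsl0.le⟩, hlt, ?_, ?_, ?_⟩
  · intro F hF hk
    exact upperB hF hk _ hsu0 (sumB (by omega) hsu0 hu2 hu1 hu3)
  · intro F hF h1
    exact upperA hF h1 _ hsu0 (sumA hu1)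
  · intro F h1 hk
    obtain ⟨k, hk2, hkm, hkF⟩ := hk
    refine lower (D := k ^ q) (N := ⌊sl⁻¹⌋₊) ?_ hN h1 hkF ⟨sl, hsl0.le⟩ hsl0 ?_
    · calc 4 = 2 ^ 2 := by norm_num
        _ ≤ k ^ 2 := Nat.pow_le_pow_left hk2 2
        _ ≤ k ^ q := Nat.pow_le_pow_right (by omega) (by omega)
    · refine le_trans ?_ hR
      change ((4 : ℝ) ^ ⌊sl⁻¹⌋₊ * ((((k ^ q : ℕ)) : ℝ) + 1) ^ 2) ^ sl ≤ _
      apply Real.rpow_le_rpow (by positivity) _ hsl0.le
      apply mul_le_mul_of_nonneg_left _ (by positivity)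
      apply pow_le_pow_left₀ (by positivity)
      have : ((k ^ q : ℕ) : ℝ) ≤ ((m ^ q : ℕ) : ℝ) := by
        exact_mod_cast Nat.pow_le_pow_left hkm q
      linarith

end Pool.Agent.R453.DSp
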