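import Mathlib

/-!
# Dimension spectrum of continued fractions: definitions and basic facts
-/

namespace Pool.Agent.R453.DSp

open Set

/-- The Gauss map. -/
noncomputable def gauss (x : ℝ) : ℝ := Int.fract (1 / x)

/-- `digit x n` is the `(n+1)`-st continued fraction digit of `x ∈ (0,1)` (for irrational `x`). -/
noncomputable def digit (x : ℝ) (n : ℕ) : ℕ := ⌊1 / (gauss^[n] x)⌋₊

/-- The set of irrational `x ∈ (0,1)` all of whose continued fraction digits lie in `F`. -/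
def J (F : Set ℕ) : Set ℝ := {x | x ∈ Ioo (0 : ℝ) 1 ∧ Irrational x ∧ ∀ n, digit x n ∈ F}

/-- The set of `q`-th powers of positive integers. -/
def Mq (q : ℕ) : Set ℕ := {a | ∃ n : ℕ, 1 ≤ n ∧ a = n ^ q}

/-- The dimension spectrum of a set `A` of positive integers. -/
noncomputable def DS (A : Set ℕ) : Set ℝ :=
  {d | ∃ F : Set ℕ, F ⊆ A ∧ F.Nonempty ∧ d = (dimH (J F)).toReal}

/-- The inverse branch. -/
noncomputable def θ (a : ℕ) (x : ℝ) : ℝ := 1 / ((a : ℝ) + x)

theorem digit_succ (x : ℝ) (n : ℕ) : digit x (n + 1) = digit (gauss x) n := by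
  simp [digit, Function.iterate_succ_apply]

theorem digit_zero (x : ℝ) : digit x 0 = ⌊1 / x⌋₊ := by
  simp [digit]

theorem gauss_θ {a : ℕ} {x : ℝ} (hx : x ∈ Ioo (0 : ℝ) 1) : gauss (θ a x) = x := by
  unfold gauss θ
  rw [one_div_one_div, Int.fract_natCast_add, Int.fract_eq_self.2 ⟨hx.1.le, hx.2⟩]

theorem digit_θ {a : ℕ} {x : ℝ} (hx : x ∈ Ioo (0 : ℝ) 1) : digit (θ a x) 0 = a := by
  rw [digit_zero]
  unfold θ
  rw [one_div_one_div]
  rw [Nat.floor_eq_iff (by have := hx.1; positivity)]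
  constructor <;> linarith [hx.1, hx.2]

theorem θ_mem {a : ℕ} (ha : 1 ≤ a) {x : ℝ} (hx : x ∈ Ioo (0 : ℝ) 1) : θ a x ∈ Ioo (0 : ℝ) 1 := by
  have h1 : (1 : ℝ) ≤ a := by exact_mod_cast ha
  unfold θ
  constructor
  · have := hx.1; positivity
  · rw [div_lt_one (by linarith [hx.1])]; linarith [hx.1]

theorem θ_mem' {a : ℕ} (ha : 1 ≤ a) {x : ℝ} (hx : x ∈ Icc (0 : ℝ) 1) : θ a x ∈ Icc (0 : ℝ) 1 := by
  have h1 : (1 : ℝ) ≤ a := by exact_mod_cast ha
  unfold θ
  constructor
  · have := hx.1; positivity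
  · rw [div_le_one (by linarith [hx.1])]; linarith [hx.1]

theorem θ_gauss {x : ℝ} (hx : x ∈ Ioo (0 : ℝ) 1) : θ (digit x 0) (gauss x) = x := by
  rw [digit_zero]
  unfold gauss θ
  have h1 : (0 : ℝ) ≤ 1 / x := by have := hx.1; positivity
  have h2 : ((⌊1 / x⌋₊ : ℕ) : ℝ) = ((⌊1 / x⌋ : ℤ) : ℝ) := by
    rw [← natCast_floor_eq_intCast_floor h1]
  rw [h2, Int.floor_add_fract, one_div_one_div]

theorem gauss_mem {x : ℝ} (hx : x ∈ Ioo (0 : ℝ) 1) (hi : Irrational x) :
    gauss x ∈ Ioo (0 : ℝ) 1 ∧ Irrational (gauss x) := by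
  have h1 : Irrational (1 / x) := by
    rw [one_div]; exact hi.inv
  have h2 : Irrational (gauss x) := by
    unfold gauss Int.fract
    exact h1.sub_intCast _
  refine ⟨⟨?_, Int.fract_lt_one _⟩, h2⟩
  exact lt_of_le_of_ne (Int.fract_nonneg _) (fun h => h2.ne_zero h.symm)

theorem J_gauss {F : Set ℕ} {x : ℝ} (hx : x ∈ J F) : gauss x ∈ J F := by
  obtain ⟨h1, h2, h3⟩ := hx
  obtain ⟨h4, h5⟩ := gauss_mem h1 h2
  exact ⟨h4, h5, fun n => by rw [← digit_succ]; exact h3 (n + 1)⟩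

theorem J_mono {F G : Set ℕ} (h : F ⊆ G) : J F ⊆ J G :=
  fun _ hx => ⟨hx.1, hx.2.1, fun n => h (hx.2.2 n)⟩

theorem digit_pos {x : ℝ} (hx : x ∈ Ioo (0 : ℝ) 1) : 1 ≤ digit x 0 := by
  rw [digit_zero, Nat.one_le_floor_iff]
  rw [le_div_iff₀ hx.1]; linarith [hx.2]

/-- Upper Lipschitz bound. -/
theorem θ_dist_le {a : ℕ} (ha : 1 ≤ a) {x y : ℝ} (hx : x ∈ Icc (0 : ℝ) 1)
    (hy : y ∈ Icc (0 : ℝ) 1) : |θ a x - θ a y| ≤ (1 / (a : ℝ) ^ 2) * |x - y| := by
  have h1 : (1 : ℝ) ≤ a := by exact_mod_cast ha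
  have hax : (0 : ℝ) < a + x := by linarith [hx.1]
  have hay : (0 : ℝ) < a + y := by linarith [hy.1]
  have h2 : θ a x - θ a y = (y - x) / ((a + x) * (a + y)) := by
    unfold θ; field_simp; ring
  rw [h2, abs_div, abs_sub_comm, abs_of_pos (mul_pos hax hay), div_eq_mul_inv, mul_comm,
    ← one_div]
  apply mul_le_mul_of_nonneg_right _ (abs_nonneg _)
  apply one_div_le_one_div_of_le (by positivity)
  nlinarith [hx.1, hy.1]

/-- Lower Lipschitz bound. -/
theorem le_θ_dist {a : ℕ} (ha : 1 ≤ a) {x y : ℝ} (hx : x ∈ Icc (0 : ℝ) 1)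
    (hy : y ∈ Icc (0 : ℝ) 1) : (1 / ((a : ℝ) + 1) ^ 2) * |x - y| ≤ |θ a x - θ a y| := by
  have h1 : (1 : ℝ) ≤ a := by exact_mod_cast ha
  have hax : (0 : ℝ) < a + x := by linarith [hx.1]
  have hay : (0 : ℝ) < a + y := by linarith [hy.1]
  have h2 : θ a x - θ a y = (y - x) / ((a + x) * (a + y)) := by
    unfold θ; field_simp; ring
  rw [h2, abs_div, abs_sub_comm y x, abs_of_pos (mul_pos hax hay), div_eq_mul_inv |x - y|,
    mul_comm |x - y|, ← one_div]
  apply mul_le_mul_of_nonneg_right _ (abs_nonneg _)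
  apply one_div_le_one_div_of_le (by positivity)
  nlinarith [hx.1, hy.1, hx.2, hy.2]

/-- A set in `(0,1)` that is invariant under the Gauss map contains only irrationals. -/
theorem irrational_of_invariant {S : Set ℝ} (h01 : S ⊆ Ioo (0 : ℝ) 1)
    (hg : ∀ x ∈ S, gauss x ∈ S) : ∀ x ∈ S, Irrational x := by
  have key : ∀ b a : ℕ, ((a : ℝ) / b) ∈ S → False := by
    intro b
    induction b using Nat.strong_induction_on with
    | _ b ih =>
      intro a ha
      have h1 := h01 ha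
      have hb : 0 < b := by
        rcases Nat.eq_zero_or_pos b with h | h
        · subst h; simp at h1
        · exact h
      have hbR : (0 : ℝ) < b := by exact_mod_cast hb
      have haR : (0 : ℝ) < a := by
        by_contra h
        push Not at h
        have h2 : (a : ℝ) / b ≤ 0 := div_nonpos_of_nonpos_of_nonneg h hbR.le
        linarith [h1.1]
      have hab : a < b := by
        have h2 := h1.2
        rw [div_lt_one hbR] at h2
        exact_mod_cast h2
      have h3 := hg _ ha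
      have h4 : gauss ((a : ℝ) / b) = ((b % a : ℕ) : ℝ) / a := by
        unfold gauss
        rw [one_div_div]
        have h5 : (b : ℝ) / a = ((b / a : ℕ) : ℝ) + ((b % a : ℕ) : ℝ) / a := by
          have h6 : (b : ℝ) = a * ((b / a : ℕ) : ℝ) + ((b % a : ℕ) : ℝ) := by
            exact_mod_cast (Nat.div_add_mod b a).symm
          field_simp
          linarith
        rw [h5, Int.fract_natCast_add, Int.fract_eq_self]
        constructor
        · positivity
        · rw [div_lt_one haR]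
          exact_mod_cast Nat.mod_lt _ (by exact_mod_cast haR)
      rw [h4] at h3
      exact ih a hab (b % a) h3
  intro x hx hrat
  obtain ⟨r, hr⟩ := hrat
  have h1 := h01 hx
  have hrpos : 0 < r := by
    have : (0 : ℝ) < r := by rw [hr]; exact h1.1
    exact_mod_cast this
  apply key r.den r.num.toNat
  have h2 : ((r.num.toNat : ℕ) : ℝ) = (r.num : ℝ) := by
    have : ((r.num.toNat : ℤ)) = r.num := Int.toNat_of_nonneg (Rat.num_nonneg.2 hrpos.le)
    exact_mod_cast this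
  rw [h2]
  have h3 : ((r.num : ℝ) / (r.den : ℝ)) = (r : ℝ) := by
    exact_mod_cast congrArg (fun t : ℚ => (t : ℝ)) (Rat.num_div_den r)
  rw [h3, hr]
  exact hx

end Pool.Agent.R453.DSp
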