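import Pool.Agent.R453.DSp.Defs

/-!
# Lower bound for the dimension of the set with continued fraction digits in `{1, D}`
-/

namespace Pool.Agent.R453.DSp

open Set Filter Topology

/-- `L` ones followed by `D`. -/
noncomputable def Θ (D L : ℕ) (x : ℝ) : ℝ := (θ 1)^[L] (θ D x)

theorem Θ_zero (D : ℕ) (x : ℝ) : Θ D 0 x = θ D x := rfl

theorem Θ_succ (D L : ℕ) (x : ℝ) : Θ D (L + 1) x = θ 1 (Θ D L x) := by
  unfold Θ; rw [Function.iterate_succ_apply']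

theorem Θ_mem {D : ℕ} (hD : 2 ≤ D) (L : ℕ) {x : ℝ} (hx : x ∈ Icc (0 : ℝ) 1) :
    Θ D L x ∈ Ioo (0 : ℝ) 1 := by
  induction L with
  | zero =>
    rw [Θ_zero]
    unfold θ
    have h1 : (2 : ℝ) ≤ D := by exact_mod_cast hD
    constructor
    · have := hx.1; positivity
    · rw [div_lt_one (by linarith [hx.1])]; linarith [hx.1]
  | succ L ih =>
    rw [Θ_succ]; exact θ_mem le_rfl ih

theorem Θ_dist_le {D : ℕ} (hD : 4 ≤ D) (L : ℕ) {x y : ℝ} (hx : x ∈ Icc (0 : ℝ) 1)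
    (hy : y ∈ Icc (0 : ℝ) 1) : |Θ D L x - Θ D L y| ≤ (1 / 16) * |x - y| := by
  induction L with
  | zero =>
    rw [Θ_zero, Θ_zero]
    refine (θ_dist_le (by omega) hx hy).trans ?_
    apply mul_le_mul_of_nonneg_right _ (abs_nonneg _)
    have h1 : (4 : ℝ) ≤ D := by exact_mod_cast hD
    apply one_div_le_one_div_of_le (by norm_num)
    nlinarith
  | succ L ih =>
    rw [Θ_succ, Θ_succ]
    refine (θ_dist_le le_rfl (Ioo_subset_Icc_self (Θ_mem (by omega) L hx))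
      (Ioo_subset_Icc_self (Θ_mem (by omega) L hy))).trans ?_
    simpa using ih

theorem le_Θ_dist {D : ℕ} (hD : 4 ≤ D) (L : ℕ) {x y : ℝ} (hx : x ∈ Icc (0 : ℝ) 1)
    (hy : y ∈ Icc (0 : ℝ) 1) :
    (1 / 4) ^ L * (1 / ((D : ℝ) + 1) ^ 2) * |x - y| ≤ |Θ D L x - Θ D L y| := by
  induction L with
  | zero =>
    rw [Θ_zero, Θ_zero]
    simpa using le_θ_dist (by omega : 1 ≤ D) hx hy
  | succ L ih =>
    rw [Θ_succ, Θ_succ]
    refine le_trans ?_ (le_θ_dist le_rfl (Ioo_subset_Icc_self (Θ_mem (by omega) L hx))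
      (Ioo_subset_Icc_self (Θ_mem (by omega) L hy)))
    have h1 : (1 / (((1 : ℕ) : ℝ) + 1) ^ 2) = 1 / 4 := by norm_num
    rw [h1]
    calc (1 / 4) ^ (L + 1) * (1 / ((D : ℝ) + 1) ^ 2) * |x - y|
        = 1 / 4 * ((1 / 4) ^ L * (1 / ((D : ℝ) + 1) ^ 2) * |x - y|) := by ring
      _ ≤ _ := mul_le_mul_of_nonneg_left ih (by norm_num)

theorem sep {D : ℕ} (hD : 4 ≤ D) (L k : ℕ) {x y : ℝ} (hx : x ∈ Icc (0 : ℝ) 1)
    (hy : y ∈ Icc (0 : ℝ) 1) :
    (1 / 4 : ℝ) ^ L * (1 / 4) ≤ |Θ D L x - Θ D (L + k + 1) y| := by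
  induction L with
  | zero =>
    rw [Θ_zero, show 0 + k + 1 = k + 1 by ring, Θ_succ]
    have h1 : (4 : ℝ) ≤ D := by exact_mod_cast hD
    have h2 : θ D x ≤ 1 / 4 := by
      unfold θ
      apply one_div_le_one_div_of_le (by norm_num)
      linarith [hx.1]
    have h3 : 1 / 2 ≤ θ 1 (Θ D k y) := by
      have h4 := Θ_mem (by omega : 2 ≤ D) k hy
      unfold θ
      apply one_div_le_one_div_of_le
      · push_cast; linarith [h4.1]
      · push_cast; linarith [h4.2]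
    rw [abs_sub_comm]
    refine le_trans ?_ (le_abs_self _)
    rw [pow_zero]; linarith
  | succ L ih =>
    rw [Θ_succ, show L + 1 + k + 1 = (L + k + 1) + 1 by ring, Θ_succ]
    refine le_trans ?_ (le_θ_dist le_rfl (Ioo_subset_Icc_self (Θ_mem (by omega) L hx))
      (Ioo_subset_Icc_self (Θ_mem (by omega) _ hy)))
    have h1 : (1 / (((1 : ℕ) : ℝ) + 1) ^ 2) = 1 / 4 := by norm_num
    rw [h1]
    calc (1 / 4 : ℝ) ^ (L + 1) * (1 / 4) = 1 / 4 * ((1 / 4) ^ L * (1 / 4)) := by ring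
      _ ≤ _ := mul_le_mul_of_nonneg_left ih (by norm_num)

theorem sep_ne {D N : ℕ} (hD : 4 ≤ D) {L L' : ℕ} (hL : L < N) (hL' : L' < N) (hne : L ≠ L')
    {x y : ℝ} (hx : x ∈ Icc (0 : ℝ) 1) (hy : y ∈ Icc (0 : ℝ) 1) :
    (1 / 4 : ℝ) ^ N * (1 / 4) ≤ |Θ D L x - Θ D L' y| := by
  have mono : ∀ M, M < N → (1 / 4 : ℝ) ^ N * (1 / 4) ≤ (1 / 4 : ℝ) ^ M * (1 / 4) := by
    intro M hM
    apply mul_le_mul_of_nonneg_right _ (by norm_num)
    exact pow_le_pow_of_le_one (by norm_num) (by norm_num) hM.le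
  rcases lt_or_gt_of_ne hne with h | h
  · obtain ⟨k, rfl⟩ := Nat.exists_eq_add_of_lt h
    exact (mono L hL).trans (sep hD L k hx hy)
  · obtain ⟨k, rfl⟩ := Nat.exists_eq_add_of_lt h
    rw [abs_sub_comm]
    exact (mono L' hL').trans (sep hD L' k hy hx)

/-- Shift of a sequence. -/
def shift (ω : ℕ → ℕ) : ℕ → ℕ := fun i => ω (i + 1)

/-- Finite approximations of the coded point. -/
noncomputable def approx (D : ℕ) : ℕ → (ℕ → ℕ) → ℝ
  | 0, _ => 1 / 2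
  | n + 1, ω => Θ D (ω 0) (approx D n (shift ω))

theorem approx_mem {D : ℕ} (hD : 4 ≤ D) (n : ℕ) (ω : ℕ → ℕ) : approx D n ω ∈ Icc (0 : ℝ) 1 := by
  induction n generalizing ω with
  | zero => rw [approx]; constructor <;> norm_num
  | succ n ih =>
    rw [approx]; exact Ioo_subset_Icc_self (Θ_mem (by omega) _ (ih _))

theorem approx_step {D : ℕ} (hD : 4 ≤ D) (n : ℕ) (ω : ℕ → ℕ) :
    dist (approx D n ω) (approx D (n + 1) ω) ≤ 1 * (1 / 16) ^ n := by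
  induction n generalizing ω with
  | zero =>
    have h1 := approx_mem hD 0 ω
    have h2 := approx_mem hD 1 ω
    rw [Real.dist_eq]
    have := abs_sub_le_of_le_of_le h1.1 h1.2 h2.1 h2.2
    simpa using this
  | succ n ih =>
    rw [approx, approx, Real.dist_eq]
    refine (Θ_dist_le hD _ (approx_mem hD _ _) (approx_mem hD _ _)).trans ?_
    have := ih (shift ω)
    rw [Real.dist_eq] at this
    calc 1 / 16 * |approx D n (shift ω) - approx D (n + 1) (shift ω)|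
        ≤ 1 / 16 * (1 * (1 / 16) ^ n) := mul_le_mul_of_nonneg_left this (by norm_num)
      _ = 1 * (1 / 16) ^ (n + 1) := by ring

theorem exists_lim {D : ℕ} (hD : 4 ≤ D) (ω : ℕ → ℕ) :
    ∃ x, Tendsto (fun n => approx D n ω) atTop (𝓝 x) :=
  cauchySeq_tendsto_of_complete
    (cauchySeq_of_le_geometric (1 / 16) 1 (by norm_num) (fun n => approx_step hD n ω))

open Classical in
/-- The coded point. -/
noncomputable def Φ (D : ℕ) (ω : ℕ → ℕ) : ℝ :=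
  if h : ∃ x, Tendsto (fun n => approx D n ω) atTop (𝓝 x) then h.choose else 0

theorem Φ_tendsto {D : ℕ} (hD : 4 ≤ D) (ω : ℕ → ℕ) :
    Tendsto (fun n => approx D n ω) atTop (𝓝 (Φ D ω)) := by
  have h := exists_lim hD ω
  unfold Φ
  rw [dif_pos h]
  exact h.choose_spec

theorem Φ_mem {D : ℕ} (hD : 4 ≤ D) (ω : ℕ → ℕ) : Φ D ω ∈ Icc (0 : ℝ) 1 :=
  isClosed_Icc.mem_of_tendsto (Φ_tendsto hD ω) (Eventually.of_forall (fun n => approx_mem hD n ω))

theorem Φ_rec {D : ℕ} (hD : 4 ≤ D) (ω : ℕ → ℕ) : Φ D ω = Θ D (ω 0) (Φ D (shift ω)) := by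
  have h1 : Tendsto (fun n => approx D (n + 1) ω) atTop (𝓝 (Φ D ω)) :=
    (Φ_tendsto hD ω).comp (tendsto_add_atTop_nat 1)
  have h2 : Tendsto (fun n => approx D (n + 1) ω) atTop (𝓝 (Θ D (ω 0) (Φ D (shift ω)))) := by
    rw [tendsto_iff_dist_tendsto_zero]
    have h3 : Tendsto (fun n => dist (approx D n (shift ω)) (Φ D (shift ω))) atTop (𝓝 0) :=
      tendsto_iff_dist_tendsto_zero.1 (Φ_tendsto hD (shift ω))
    refine squeeze_zero (fun n => dist_nonneg) (fun n => ?_) h3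
    rw [approx, Real.dist_eq, Real.dist_eq]
    refine (Θ_dist_le hD _ (approx_mem hD _ _) (Φ_mem hD _)).trans ?_
    have := abs_nonneg (approx D n (shift ω) - Φ D (shift ω))
    linarith
  exact tendsto_nhds_unique h1 h2

theorem Φ_mem_Ioo {D : ℕ} (hD : 4 ≤ D) (ω : ℕ → ℕ) : Φ D ω ∈ Ioo (0 : ℝ) 1 := by
  rw [Φ_rec hD]; exact Θ_mem (by omega) _ (Φ_mem hD _)

/-- The invariant set. -/
def SS (D : ℕ) : Set ℝ := {x | ∃ (L : ℕ) (ω : ℕ → ℕ), x = Θ D L (Φ D ω)}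

theorem SS_subset {D : ℕ} (hD : 4 ≤ D) : SS D ⊆ Ioo (0 : ℝ) 1 := by
  rintro x ⟨L, ω, rfl⟩
  exact Θ_mem (by omega) L (Φ_mem hD ω)

theorem Φ_mem_SS {D : ℕ} (hD : 4 ≤ D) (ω : ℕ → ℕ) : Φ D ω ∈ SS D :=
  ⟨ω 0, shift ω, Φ_rec hD ω⟩

theorem SS_gauss {D : ℕ} (hD : 4 ≤ D) : ∀ x ∈ SS D, gauss x ∈ SS D ∧ (digit x 0 = 1 ∨
    digit x 0 = D) := by
  rintro x ⟨L, ω, rfl⟩
  cases L with
  | zero =>
    rw [Θ_zero]
    exact ⟨by rw [gauss_θ (Φ_mem_Ioo hD ω)]; exact Φ_mem_SS hD ω,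
      Or.inr (digit_θ (Φ_mem_Ioo hD ω))⟩
  | succ L =>
    rw [Θ_succ]
    have h1 : Θ D L (Φ D ω) ∈ Ioo (0 : ℝ) 1 := Θ_mem (by omega) L (Φ_mem hD ω)
    exact ⟨by rw [gauss_θ h1]; exact ⟨L, ω, rfl⟩, Or.inl (digit_θ h1)⟩

theorem SS_iter {D : ℕ} (hD : 4 ≤ D) (n : ℕ) : ∀ x ∈ SS D, digit x n = 1 ∨ digit x n = D := by
  induction n with
  | zero => exact fun x hx => (SS_gauss hD x hx).2
  | succ n ih =>
    intro x hx
    rw [digit_succ]
    exact ih _ (SS_gauss hD x hx).1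

theorem Φ_mem_J {D : ℕ} (hD : 4 ≤ D) {F : Set ℕ} (h1 : 1 ∈ F) (h2 : D ∈ F) (ω : ℕ → ℕ) :
    Φ D ω ∈ J F := by
  refine ⟨Φ_mem_Ioo hD ω, ?_, ?_⟩
  · exact irrational_of_invariant (SS_subset hD) (fun x hx => (SS_gauss hD x hx).1) _
      (Φ_mem_SS hD ω)
  · intro n
    rcases SS_iter hD n _ (Φ_mem_SS hD ω) with h | h
    · rw [h]; exact h1
    · rw [h]; exact h2

/-- Contraction lower bound. -/
noncomputable def ρ (D N : ℕ) : ℝ := (1 / 4) ^ N * (1 / ((D : ℝ) + 1) ^ 2)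

theorem ρ_pos (D N : ℕ) : 0 < ρ D N := by unfold ρ; positivity

theorem ρ_le {D N : ℕ} (hN : 1 ≤ N) : ρ D N ≤ 1 / 4 := by
  unfold ρ
  have h1 : (1 / 4 : ℝ) ^ N ≤ (1 / 4 : ℝ) ^ 1 :=
    pow_le_pow_of_le_one (by norm_num) (by norm_num) hN
  have h2 : 1 / ((D : ℝ) + 1) ^ 2 ≤ 1 := by
    rw [div_le_one (by positivity)]
    have : (0 : ℝ) ≤ D := Nat.cast_nonneg _
    nlinarith
  have h3 : (0 : ℝ) ≤ 1 / ((D : ℝ) + 1) ^ 2 := by positivity
  have h4 : (0 : ℝ) ≤ (1 / 4 : ℝ) ^ N := by positivity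
  nlinarith

theorem agree {D N : ℕ} (hD : 4 ≤ D) (n : ℕ) (ω ω' : ℕ → ℕ) (h1 : ∀ i, ω i < N)
    (h2 : ∀ i, ω' i < N) (h : |Φ D ω - Φ D ω'| < (1 / 4 : ℝ) ^ N * (1 / 4) * ρ D N ^ n) :
    ∀ i ≤ n, ω i = ω' i := by
  induction n generalizing ω ω' with
  | zero =>
    intro i hi
    have hi0 : i = 0 := by omega
    subst hi0
    by_contra hne
    have h3 := sep_ne hD (h1 0) (h2 0) hne (Φ_mem hD (shift ω)) (Φ_mem hD (shift ω'))
    rw [← Φ_rec hD, ← Φ_rec hD] at h3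
    rw [pow_zero, mul_one] at h
    linarith
  | succ n ih =>
    have hN : 1 ≤ N := by have := h1 0; omega
    have h0 : ω 0 = ω' 0 := by
      by_contra hne
      have h3 := sep_ne hD (h1 0) (h2 0) hne (Φ_mem hD (shift ω)) (Φ_mem hD (shift ω'))
      rw [← Φ_rec hD, ← Φ_rec hD] at h3
      have h4 : ρ D N ^ (n + 1) ≤ 1 := pow_le_one₀ (ρ_pos D N).le ((ρ_le hN).trans (by norm_num))
      have h5 : (0 : ℝ) < (1 / 4 : ℝ) ^ N * (1 / 4) := by positivity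
      nlinarith
    have h3 : |Φ D (shift ω) - Φ D (shift ω')| < (1 / 4 : ℝ) ^ N * (1 / 4) * ρ D N ^ n := by
      have h4 := le_Θ_dist hD (ω 0) (Φ_mem hD (shift ω)) (Φ_mem hD (shift ω'))
      rw [← Φ_rec hD ω] at h4
      rw [h0, ← Φ_rec hD ω'] at h4
      have h5 : ρ D N ≤ (1 / 4) ^ (ω' 0) * (1 / ((D : ℝ) + 1) ^ 2) := by
        unfold ρ
        apply mul_le_mul_of_nonneg_right _ (by positivity)
        exact pow_le_pow_of_le_one (by norm_num) (by norm_num) (h2 0).le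
      have h6 : ρ D N * |Φ D (shift ω) - Φ D (shift ω')| ≤
          (1 / 4) ^ (ω' 0) * (1 / ((D : ℝ) + 1) ^ 2) * |Φ D (shift ω) - Φ D (shift ω')| :=
        mul_le_mul_of_nonneg_right h5 (abs_nonneg _)
      have h7 : ρ D N * |Φ D (shift ω) - Φ D (shift ω')| <
          ρ D N * ((1 / 4 : ℝ) ^ N * (1 / 4) * ρ D N ^ n) := by
        calc _ ≤ _ := h6
          _ ≤ _ := h4
          _ < _ := h
          _ = _ := by ring
      exact lt_of_mul_lt_mul_left h7 (ρ_pos D N).le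
    intro i hi
    cases i with
    | zero => exact h0
    | succ i =>
      exact ih (shift ω) (shift ω') (fun i => h1 (i + 1)) (fun i => h2 (i + 1)) h3 i (by omega)

/-- Sequences over `Fin N` as sequences of naturals. -/
def emb {N : ℕ} (ω : ℕ → Fin N) : ℕ → ℕ := fun i => (ω i : ℕ)

open Classical in
/-- The decoding map. -/
noncomputable def dec (D N : ℕ) (x : ℝ) : ℝ :=
  if h : ∃ ω : ℕ → Fin N, Φ D (emb ω) = x then Real.ofDigits h.choose else 0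

theorem holder {D N : ℕ} (hD : 4 ≤ D) (hN : 2 ≤ N) (s : ℝ) (hs : 0 < s)
    (hR : ((4 : ℝ) ^ N * ((D : ℝ) + 1) ^ 2) ^ s ≤ N) (ω ω' : ℕ → Fin N) :
    |Real.ofDigits ω - Real.ofDigits ω'| ≤
      ((4 : ℝ) ^ N * 4) ^ s * |Φ D (emb ω) - Φ D (emb ω')| ^ s := by
  set c₀ : ℝ := (1 / 4 : ℝ) ^ N * (1 / 4) with hc₀
  have hc₀pos : 0 < c₀ := by positivity
  set δ := |Φ D (emb ω) - Φ D (emb ω')| with hδ
  have hδ0 : 0 ≤ δ := abs_nonneg _
  rcases hδ0.eq_or_lt with h0 | hpos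
  · -- the points coincide
    have heq : ω = ω' := by
      funext i
      have := agree hD i (emb ω) (emb ω') (fun i => (ω i).2) (fun i => (ω' i).2)
        (by rw [← hδ, ← h0]; have := ρ_pos D N; positivity) i le_rfl
      exact Fin.ext this
    rw [heq, sub_self, abs_zero]
    positivity
  · have hex : ∃ n, c₀ * ρ D N ^ n ≤ δ := by
      have h1 : Tendsto (fun n => c₀ * ρ D N ^ n) atTop (𝓝 (c₀ * 0)) :=
        (tendsto_pow_atTop_nhds_zero_of_lt_one (ρ_pos D N).le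
          (lt_of_le_of_lt (ρ_le (by omega)) (by norm_num))).const_mul _
      rw [mul_zero] at h1
      exact ((h1.eventually (gt_mem_nhds hpos)).exists).imp (fun n hn => hn.le)
    classical
    set n := Nat.find hex with hn
    have h1 : c₀ * ρ D N ^ n ≤ δ := Nat.find_spec hex
    have h2 : ∀ i < n, ω i = ω' i := by
      intro i hi
      have h3 : ¬ c₀ * ρ D N ^ (n - 1) ≤ δ := Nat.find_min hex (by omega)
      push Not at h3
      have := agree hD (n - 1) (emb ω) (emb ω') (fun i => (ω i).2) (fun i => (ω' i).2) h3 i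
        (by omega)
      exact Fin.ext this
    refine (Real.abs_ofDigits_sub_ofDigits_le h2).trans ?_
    have hNpos : (0 : ℝ) < N := by exact_mod_cast (by omega : 0 < N)
    have h4 : ((N : ℝ))⁻¹ ≤ (ρ D N) ^ s := by
      have h5 : ρ D N = ((4 : ℝ) ^ N * ((D : ℝ) + 1) ^ 2)⁻¹ := by
        unfold ρ; rw [mul_inv]; simp
      rw [h5, Real.inv_rpow (by positivity)]
      exact inv_anti₀ (by positivity) hR
    have h6 : (((N : ℝ)) ^ n)⁻¹ ≤ ((ρ D N) ^ n) ^ s := by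
      rw [← inv_pow, ← Real.rpow_natCast (ρ D N) n, ← Real.rpow_mul (ρ_pos D N).le, mul_comm,
        Real.rpow_mul (ρ_pos D N).le, Real.rpow_natCast]
      exact pow_le_pow_left₀ (by positivity) h4 n
    refine h6.trans ?_
    rw [← Real.mul_rpow (by positivity) hδ0]
    apply Real.rpow_le_rpow (pow_nonneg (ρ_pos D N).le _) _ hs.le
    have h7 : (4 : ℝ) ^ N * 4 = c₀⁻¹ := by
      rw [hc₀, mul_inv]; simp
    rw [h7, inv_mul_eq_div, le_div_iff₀ hc₀pos, mul_comm]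
    exact h1

theorem Φ_inj {D N : ℕ} (hD : 4 ≤ D) (ω ω' : ℕ → Fin N) (h : Φ D (emb ω) = Φ D (emb ω')) :
    ω = ω' := by
  funext i
  have := agree hD i (emb ω) (emb ω') (fun i => (ω i).2) (fun i => (ω' i).2)
    (by rw [h, sub_self, abs_zero]; have := ρ_pos D N; positivity) i le_rfl
  exact Fin.ext this

theorem dec_Φ {D N : ℕ} (hD : 4 ≤ D) (ω : ℕ → Fin N) : dec D N (Φ D (emb ω)) = Real.ofDigits ω := by
  have hex : ∃ ω' : ℕ → Fin N, Φ D (emb ω') = Φ D (emb ω) := ⟨ω, rfl⟩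
  unfold dec
  rw [dif_pos hex]
  rw [Φ_inj hD _ _ hex.choose_spec]

open scoped NNReal ENNReal in
/-- **Lower bound.** -/
theorem lower {F : Set ℕ} {D N : ℕ} (hD : 4 ≤ D) (hN : 2 ≤ N) (h1 : 1 ∈ F) (hDF : D ∈ F) (s : ℝ≥0)
    (hs : 0 < s) (hR : ((4 : ℝ) ^ N * ((D : ℝ) + 1) ^ 2) ^ (s : ℝ) ≤ N) :
    (s : ℝ≥0∞) ≤ dimH (J F) := by
  set E : Set ℝ := range (fun ω : ℕ → Fin N => Φ D (emb ω)) with hE
  have hsub : E ⊆ J F := by
    rintro x ⟨ω, rfl⟩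
    exact Φ_mem_J hD h1 hDF _
  have hH : HolderOnWith (Real.toNNReal (((4 : ℝ) ^ N * 4) ^ (s : ℝ))) s (dec D N) E := by
    rintro x ⟨ω, rfl⟩ y ⟨ω', rfl⟩
    simp only
    rw [dec_Φ hD, dec_Φ hD, edist_dist, edist_dist, Real.dist_eq, Real.dist_eq]
    rw [ENNReal.ofReal_rpow_of_nonneg (abs_nonneg _) (NNReal.coe_nonneg s)]
    change _ ≤ ENNReal.ofReal _ * _
    rw [← ENNReal.ofReal_mul (by positivity)]
    exact ENNReal.ofReal_le_ofReal (holder hD hN s (by exact_mod_cast hs) hR ω ω')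
  have h2 := hH.dimH_image_le hs
  have h3 : Icc (0 : ℝ) 1 ⊆ dec D N '' E := by
    intro t ht
    obtain ⟨ω, _, hω⟩ := Real.ofDigits_SurjOn (b := N) (by omega) ht
    exact ⟨Φ D (emb ω), ⟨ω, rfl⟩, by rw [dec_Φ hD, hω]⟩
  have h4 : (1 : ℝ≥0∞) ≤ dimH E / s := by
    calc (1 : ℝ≥0∞) = dimH (Icc (0 : ℝ) 1) := by
          rw [Real.dimH_of_nonempty_interior]
          · simp
          · rw [interior_Icc]; exact ⟨1 / 2, by norm_num, by norm_num⟩
      _ ≤ dimH (dec D N '' E) := dimH_mono h3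
      _ ≤ _ := h2
  have h5 : (s : ℝ≥0∞) ≤ dimH E := by
    rw [ENNReal.le_div_iff_mul_le (Or.inl (by exact_mod_cast hs.ne')) (Or.inl ENNReal.coe_ne_top),
      one_mul] at h4
    exact h4
  exact h5.trans (dimH_mono hsub)

end Pool.Agent.R453.DSp
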