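import Pool.Agent.R453.DSp.Lower

/-!
# Upper bounds for the dimension
-/

namespace Pool.Agent.R453.DSp

open Set Filter Topology MeasureTheory
open scoped NNReal ENNReal

/-- Index types of the iterated covers. -/
def Ix (I : Type) : ℕ → Type
  | 0 => Unit
  | n + 1 => I × Ix I n

instance Ix_countable (I : Type) [Countable I] (n : ℕ) : Countable (Ix I n) := by
  induction n with
  | zero => unfold Ix; infer_instance
  | succ n ih => unfold Ix; infer_instance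

/-- The iterated covers. -/
def cov {I : Type} (f : I → ℝ → ℝ) (E : Set ℝ) : ∀ n : ℕ, Ix I n → Set ℝ
  | 0, _ => E
  | n + 1, (i, j) => f i '' (cov f E n j) ∩ E

theorem cov_subset {I : Type} (f : I → ℝ → ℝ) (E : Set ℝ) (n : ℕ) (j : Ix I n) :
    cov f E n j ⊆ E := by
  cases n with
  | zero => exact subset_rfl
  | succ n => exact inter_subset_right

theorem cov_cover {I : Type} (f : I → ℝ → ℝ) (E : Set ℝ) (hcov : E ⊆ ⋃ i, f i '' E) (n : ℕ) :
    E ⊆ ⋃ j, cov f E n j := by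
  induction n with
  | zero => exact fun x hx => mem_iUnion.2 ⟨(() : Unit), hx⟩
  | succ n ih =>
    intro x hx
    obtain ⟨i, y, hy, rfl⟩ := mem_iUnion.1 (hcov hx)
    obtain ⟨j, hj⟩ := mem_iUnion.1 (ih hy)
    exact mem_iUnion.2 ⟨(i, j), ⟨y, hj, rfl⟩, hx⟩

theorem ediam_image_le {f : ℝ → ℝ} {A : Set ℝ} {r : ℝ≥0}
    (h : ∀ x ∈ A, ∀ y ∈ A, |f x - f y| ≤ r * |x - y|) :
    Metric.ediam (f '' A) ≤ r * Metric.ediam A := by
  apply Metric.ediam_le
  rintro _ ⟨x, hx, rfl⟩ _ ⟨y, hy, rfl⟩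
  calc edist (f x) (f y) ≤ r * edist x y := by
        rw [edist_dist, edist_dist, Real.dist_eq, Real.dist_eq, ← ENNReal.ofReal_coe_nnreal,
          ← ENNReal.ofReal_mul (NNReal.coe_nonneg r)]
        exact ENNReal.ofReal_le_ofReal (h x hx y hy)
    _ ≤ r * Metric.ediam A := mul_le_mul_right (Metric.edist_le_ediam_of_mem hx hy) _

theorem cov_ediam {I : Type} (f : I → ℝ → ℝ) (r : I → ℝ≥0) (E : Set ℝ)
    (hlip : ∀ i, ∀ x ∈ E, ∀ y ∈ E, |f i x - f i y| ≤ r i * |x - y|) (n : ℕ) (i : I) (j : Ix I n) :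
    Metric.ediam (cov f E (n + 1) (i, j)) ≤ r i * Metric.ediam (cov f E n j) := by
  refine (Metric.ediam_mono inter_subset_left).trans ?_
  exact ediam_image_le (fun x hx y hy => hlip i x (cov_subset f E n j hx) y
    (cov_subset f E n j hy))

theorem dimH_le_of_cover {I : Type} [Countable I] (f : I → ℝ → ℝ) (r : I → ℝ≥0) (E : Set ℝ)
    (hE : E ⊆ Icc (0 : ℝ) 1)
    (hlip : ∀ i, ∀ x ∈ E, ∀ y ∈ E, |f i x - f i y| ≤ r i * |x - y|)
    (hcov : E ⊆ ⋃ i, f i '' E) (s : ℝ≥0) (hs : 0 < s)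
    (hsum : ∑' i, ((r i : ℝ≥0∞)) ^ (s : ℝ) < 1) : dimH E ≤ s := by
  have hsR : (0 : ℝ) < s := by exact_mod_cast hs
  set κ := ∑' i, ((r i : ℝ≥0∞)) ^ (s : ℝ) with hκ
  have hdE : Metric.ediam E ≤ 1 := by
    refine (Metric.ediam_mono hE).trans ?_
    rw [Real.ediam_Icc]; simp
  -- sum of diameters
  have hsums : ∀ n, ∑' j : Ix I n, Metric.ediam (cov f E n j) ^ (s : ℝ) ≤ κ ^ n := by
    intro n
    induction n with
    | zero =>
      have : ∑' j : Ix I 0, Metric.ediam (cov f E 0 j) ^ (s : ℝ) = Metric.ediam E ^ (s : ℝ) := by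
        change ∑' _ : Unit, Metric.ediam E ^ (s : ℝ) = _
        simp
      rw [this, pow_zero]
      exact ENNReal.rpow_le_one hdE hsR.le
    | succ n ih =>
      calc ∑' j : Ix I (n + 1), Metric.ediam (cov f E (n + 1) j) ^ (s : ℝ)
          = ∑' p : I × Ix I n, Metric.ediam (cov f E (n + 1) (p.1, p.2)) ^ (s : ℝ) := rfl
        _ ≤ ∑' p : I × Ix I n, (r p.1 : ℝ≥0∞) ^ (s : ℝ) *
              Metric.ediam (cov f E n p.2) ^ (s : ℝ) := by
            apply ENNReal.tsum_le_tsum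
            rintro ⟨i, j⟩
            rw [← ENNReal.mul_rpow_of_nonneg _ _ hsR.le]
            exact ENNReal.rpow_le_rpow (cov_ediam f r E hlip n i j) hsR.le
        _ = κ * ∑' j : Ix I n, Metric.ediam (cov f E n j) ^ (s : ℝ) := by
            rw [ENNReal.tsum_prod (f := fun i j => (r i : ℝ≥0∞) ^ (s : ℝ) *
              Metric.ediam (cov f E n j) ^ (s : ℝ))]
            simp_rw [ENNReal.tsum_mul_left]
            rw [ENNReal.tsum_mul_right]
        _ ≤ κ * κ ^ n := mul_le_mul_right ih _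
        _ = κ ^ (n + 1) := by rw [pow_succ]; ring
  -- diameters
  set R := κ ^ ((s : ℝ)⁻¹) with hR
  have hR1 : R < 1 := ENNReal.rpow_lt_one hsum (inv_pos.2 hsR)
  have hri : ∀ i, (r i : ℝ≥0∞) ≤ R := by
    intro i
    have h1 : (r i : ℝ≥0∞) ^ (s : ℝ) ≤ κ := ENNReal.le_tsum i
    calc (r i : ℝ≥0∞) = ((r i : ℝ≥0∞) ^ (s : ℝ)) ^ ((s : ℝ)⁻¹) := by
          rw [ENNReal.rpow_rpow_inv hsR.ne']
      _ ≤ R := ENNReal.rpow_le_rpow h1 (inv_nonneg.2 hsR.le)
  have hdiam : ∀ n (j : Ix I n), Metric.ediam (cov f E n j) ≤ R ^ n := by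
    intro n
    induction n with
    | zero => intro j; rw [pow_zero]; exact hdE
    | succ n ih =>
      rintro ⟨i, j⟩
      calc _ ≤ (r i : ℝ≥0∞) * Metric.ediam (cov f E n j) := cov_ediam f r E hlip n i j
        _ ≤ R * R ^ n := mul_le_mul' (hri i) (ih j)
        _ = R ^ (n + 1) := by rw [pow_succ]; ring
  have h1 : μH[(s : ℝ)] E ≤ liminf (fun n => ∑' j : Ix I n, Metric.ediam (cov f E n j) ^ (s : ℝ))
      atTop :=
    Measure.hausdorffMeasure_le_liminf_tsum (s : ℝ) E (fun n => R ^ n)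
      (ENNReal.tendsto_pow_atTop_nhds_zero_of_lt_one hR1) (cov f E)
      (Eventually.of_forall (fun n j => hdiam n j))
      (Eventually.of_forall (fun n => cov_cover f E hcov n))
  have h2 : liminf (fun n => ∑' j : Ix I n, Metric.ediam (cov f E n j) ^ (s : ℝ)) atTop ≤
      liminf (fun n => κ ^ n) atTop :=
    liminf_le_liminf (Eventually.of_forall hsums)
  have h3 : liminf (fun n => κ ^ n) atTop = 0 :=
    (ENNReal.tendsto_pow_atTop_nhds_zero_of_lt_one hsum).liminf_eq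
  have h4 : μH[(s : ℝ)] E = 0 := le_antisymm ((h1.trans h2).trans h3.le) bot_le
  exact dimH_le_of_hausdorffMeasure_ne_top (by rw [h4]; exact ENNReal.zero_ne_top)

/-! ### Ones -/

theorem iter_mem (L : ℕ) {x : ℝ} (hx : x ∈ Icc (0 : ℝ) 1) : (θ 1)^[L] x ∈ Icc (0 : ℝ) 1 := by
  induction L with
  | zero => exact hx
  | succ L ih => rw [Function.iterate_succ_apply']; exact θ_mem' le_rfl ih

theorem θ_two {x y : ℝ} (hx : x ∈ Icc (0 : ℝ) 1) (hy : y ∈ Icc (0 : ℝ) 1) :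
    |θ 1 (θ 1 x) - θ 1 (θ 1 y)| ≤ (1 / 4) * |x - y| := by
  have e : ∀ z : ℝ, z ∈ Icc (0 : ℝ) 1 → θ 1 (θ 1 z) = (1 + z) / (2 + z) := by
    intro z hz
    have h1 : (0 : ℝ) < 1 + z := by linarith [hz.1]
    have h2 : (0 : ℝ) < 2 + z := by linarith [hz.1]
    unfold θ
    push_cast
    field_simp
    ring
  rw [e x hx, e y hy]
  have hx2 : (0 : ℝ) < 2 + x := by linarith [hx.1]
  have hy2 : (0 : ℝ) < 2 + y := by linarith [hy.1]
  have h1 : (1 + x) / (2 + x) - (1 + y) / (2 + y) = (x - y) / ((2 + x) * (2 + y)) := by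
    field_simp; ring
  rw [h1, abs_div, abs_of_pos (mul_pos hx2 hy2), div_eq_mul_inv, mul_comm, ← one_div]
  apply mul_le_mul_of_nonneg_right _ (abs_nonneg _)
  apply one_div_le_one_div_of_le (by norm_num)
  nlinarith [hx.1, hy.1]

theorem iter_lip (L : ℕ) {x y : ℝ} (hx : x ∈ Icc (0 : ℝ) 1) (hy : y ∈ Icc (0 : ℝ) 1) :
    |(θ 1)^[L] x - (θ 1)^[L] y| ≤ (2 * (1 / 2) ^ L) * |x - y| := by
  induction L using Nat.twoStepInduction with
  | zero =>
    simp only [Function.iterate_zero, id_eq, pow_zero]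
    have := abs_nonneg (x - y)
    linarith
  | one =>
    simp only [Function.iterate_one]
    have := θ_dist_le (a := 1) le_rfl hx hy
    simpa using this
  | more L ih _ =>
    rw [Function.iterate_succ_apply', Function.iterate_succ_apply', Function.iterate_succ_apply',
      Function.iterate_succ_apply']
    refine (θ_two (iter_mem L hx) (iter_mem L hy)).trans ?_
    calc 1 / 4 * |(θ 1)^[L] x - (θ 1)^[L] y| ≤ 1 / 4 * ((2 * (1 / 2) ^ L) * |x - y|) :=
          mul_le_mul_of_nonneg_left ih (by norm_num)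
      _ = (2 * (1 / 2) ^ (L + 2)) * |x - y| := by ring

/-! ### Case `1 ∉ F` -/

theorem upperA {q : ℕ} {F : Set ℕ} (hF : F ⊆ Mq q) (h1 : 1 ∉ F) (s : ℝ≥0) (hs : 0 < s)
    (hsum : ∑' n : ℕ, ((((1 / (((n : ℝ≥0) + 2) ^ q) ^ 2 : ℝ≥0)) : ℝ≥0∞)) ^ (s : ℝ) < 1) :
    dimH (J F) ≤ s := by
  have hsub : J F ⊆ Icc (0 : ℝ) 1 := fun x hx => Ioo_subset_Icc_self hx.1
  apply dimH_le_of_cover (fun n : ℕ => θ ((n + 2) ^ q)) _ (J F) hsub _ _ s hs hsum
  · intro n x hx y hy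
    refine (θ_dist_le (Nat.one_le_pow _ _ (by omega)) (hsub hx) (hsub hy)).trans (le_of_eq ?_)
    push_cast
    rfl
  · intro x hx
    have h2 := hx.2.2 0
    obtain ⟨k, hk, hkq⟩ := hF h2
    have hk2 : 2 ≤ k := by
      by_contra h
      have : k = 1 := by omega
      subst this
      rw [one_pow] at hkq
      rw [hkq] at h2
      exact h1 h2
    refine mem_iUnion.2 ⟨k - 2, gauss x, J_gauss hx, ?_⟩
    have h3 : k - 2 + 2 = k := by omega
    simp only [h3]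
    rw [← hkq]
    exact θ_gauss hx.1

/-! ### Points with infinitely many digits different from `1` -/

/-- Infinitely many digits are different from `1`. -/
def JI (F : Set ℕ) : Set ℝ := {x | x ∈ J F ∧ ∀ N, ∃ n, N ≤ n ∧ digit x n ≠ 1}

theorem JI_gauss {F : Set ℕ} {x : ℝ} (hx : x ∈ JI F) : gauss x ∈ JI F := by
  refine ⟨J_gauss hx.1, fun N => ?_⟩
  obtain ⟨n, hn, hd⟩ := hx.2 (N + 1)
  obtain ⟨k, rfl⟩ : ∃ k, n = k + 1 := ⟨n - 1, by omega⟩
  exact ⟨k, by omega, by rw [← digit_succ]; exact hd⟩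

theorem JI_cover {q m : ℕ} {F : Set ℕ} (hF : F ⊆ Mq q)
    (hm : ∀ k, 2 ≤ k → k ≤ m → k ^ q ∉ F) (L : ℕ) : ∀ x ∈ JI F, digit x L ≠ 1 →
    ∃ L' n y, y ∈ JI F ∧ x = Θ ((m + 1 + n) ^ q) L' y := by
  induction L with
  | zero =>
    intro x hx hd
    obtain ⟨k, hk, hkq⟩ := hF (hx.1.2.2 0)
    have hk2 : 2 ≤ k := by
      by_contra h
      have : k = 1 := by omega
      subst this
      rw [one_pow] at hkq
      exact hd hkq
    have hkm : m + 1 ≤ k := by
      by_contra h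
      push Not at h
      have := hm k hk2 (by omega)
      rw [← hkq] at this
      exact this (hx.1.2.2 0)
    refine ⟨0, k - (m + 1), gauss x, JI_gauss hx, ?_⟩
    have h3 : m + 1 + (k - (m + 1)) = k := by omega
    rw [h3, Θ_zero, ← hkq]
    exact (θ_gauss hx.1.1).symm
  | succ L ih =>
    intro x hx hd
    by_cases h0 : digit x 0 = 1
    · rw [digit_succ] at hd
      obtain ⟨L', n, y, hy, hxy⟩ := ih (gauss x) (JI_gauss hx) hd
      refine ⟨L' + 1, n, y, hy, ?_⟩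
      rw [Θ_succ, ← hxy, ← h0]
      exact (θ_gauss hx.1.1).symm
    · -- digit 0 is not one
      obtain ⟨k, hk, hkq⟩ := hF (hx.1.2.2 0)
      have hk2 : 2 ≤ k := by
        by_contra h
        have : k = 1 := by omega
        subst this
        rw [one_pow] at hkq
        exact h0 hkq
      have hkm : m + 1 ≤ k := by
        by_contra h
        push Not at h
        have := hm k hk2 (by omega)
        rw [← hkq] at this
        exact this (hx.1.2.2 0)
      refine ⟨0, k - (m + 1), gauss x, JI_gauss hx, ?_⟩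
      have h3 : m + 1 + (k - (m + 1)) = k := by omega
      rw [h3, Θ_zero, ← hkq]
      exact (θ_gauss hx.1.1).symm

theorem JI_upper {q m : ℕ} {F : Set ℕ} (hF : F ⊆ Mq q)
    (hm : ∀ k, 2 ≤ k → k ≤ m → k ^ q ∉ F) (s : ℝ≥0) (hs : 0 < s)
    (hsum : ∑' p : ℕ × ℕ, (((((2 : ℝ≥0) * (1 / 2) ^ p.1) *
      (1 / (((m : ℝ≥0) + 1 + p.2) ^ q) ^ 2) : ℝ≥0) : ℝ≥0∞)) ^ (s : ℝ) < 1) :
    dimH (JI F) ≤ s := by
  have hsub : JI F ⊆ Icc (0 : ℝ) 1 := fun x hx => Ioo_subset_Icc_self hx.1.1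
  apply dimH_le_of_cover (fun p : ℕ × ℕ => Θ ((m + 1 + p.2) ^ q) p.1) _ (JI F) hsub _ _ s hs hsum
  · rintro ⟨L, n⟩ x hx y hy
    simp only
    have ha : 1 ≤ (m + 1 + n) ^ q := Nat.one_le_pow _ _ (by omega)
    unfold Θ
    refine (iter_lip L (θ_mem' ha (hsub hx)) (θ_mem' ha (hsub hy))).trans ?_
    have h1 := θ_dist_le ha (hsub hx) (hsub hy)
    calc 2 * (1 / 2) ^ L * |θ ((m + 1 + n) ^ q) x - θ ((m + 1 + n) ^ q) y|
        ≤ 2 * (1 / 2) ^ L * (1 / ((((m + 1 + n) ^ q : ℕ) : ℝ)) ^ 2 * |x - y|) :=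
          mul_le_mul_of_nonneg_left h1 (by positivity)
      _ = _ := by push_cast; ring
  · intro x hx
    obtain ⟨n, _, hn⟩ := hx.2 0
    obtain ⟨L', k, y, hy, hxy⟩ := JI_cover hF hm n x hx hn
    exact mem_iUnion.2 ⟨(L', k), y, hy, hxy.symm⟩

/-! ### Points with finitely many digits different from `1` -/

/-- All digits from position `N` on are `1`. -/
def JF (N : ℕ) : Set ℝ := {x | x ∈ Ioo (0 : ℝ) 1 ∧ Irrational x ∧ ∀ n, N ≤ n → digit x n = 1}

theorem JF_zero_sub : (JF 0).Subsingleton := by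
  have key : ∀ n : ℕ, ∀ x ∈ JF 0, ∀ y ∈ JF 0, |x - y| ≤ (1 / 4) ^ n := by
    have step : ∀ x ∈ JF 0, gauss x ∈ JF 0 ∧ x = θ 1 (gauss x) := by
      intro x hx
      obtain ⟨h4, h5⟩ := gauss_mem hx.1 hx.2.1
      refine ⟨⟨h4, h5, fun n _ => ?_⟩, ?_⟩
      · rw [← digit_succ]; exact hx.2.2 _ (Nat.zero_le _)
      · rw [← hx.2.2 0 le_rfl]; exact (θ_gauss hx.1).symm
    intro n
    induction n with
    | zero =>
      intro x hx y hy
      have := abs_sub_le_of_le_of_le hx.1.1.le hx.1.2.le hy.1.1.le hy.1.2.le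
      simpa using this
    | succ n ih =>
      intro x hx y hy
      obtain ⟨hx1, hx2⟩ := step x hx
      obtain ⟨hx3, hx4⟩ := step _ hx1
      obtain ⟨hy1, hy2⟩ := step y hy
      obtain ⟨hy3, hy4⟩ := step _ hy1
      have h1 := θ_two (Ioo_subset_Icc_self hx3.1) (Ioo_subset_Icc_self hy3.1)
      rw [← hx4, ← hy4, ← hx2, ← hy2] at h1
      have h2 := ih _ hx3 _ hy3
      calc |x - y| ≤ 1 / 4 * |gauss (gauss x) - gauss (gauss y)| := h1
        _ ≤ 1 / 4 * (1 / 4) ^ n := mul_le_mul_of_nonneg_left h2 (by norm_num)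
        _ = (1 / 4) ^ (n + 1) := by ring
  intro x hx y hy
  have h1 : Tendsto (fun n : ℕ => (1 / 4 : ℝ) ^ n) atTop (𝓝 0) :=
    tendsto_pow_atTop_nhds_zero_of_lt_one (by norm_num) (by norm_num)
  have h2 : |x - y| ≤ 0 := ge_of_tendsto' h1 (fun n => key n x hx y hy)
  have h3 : |x - y| = 0 := le_antisymm h2 (abs_nonneg _)
  linarith [abs_eq_zero.1 h3]

theorem JF_countable (N : ℕ) : (JF N).Countable := by
  induction N with
  | zero => exact JF_zero_sub.countable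
  | succ N ih =>
    have h1 : JF (N + 1) ⊆ ⋃ a : ℕ, θ a '' (JF N) := by
      intro x hx
      obtain ⟨h4, h5⟩ := gauss_mem hx.1 hx.2.1
      refine mem_iUnion.2 ⟨digit x 0, gauss x, ⟨h4, h5, fun n hn => ?_⟩, θ_gauss hx.1⟩
      rw [← digit_succ]; exact hx.2.2 _ (by omega)
    exact (countable_iUnion (fun a => ih.image _)).mono h1

theorem upperB {q m : ℕ} {F : Set ℕ} (hF : F ⊆ Mq q)
    (hm : ∀ k, 2 ≤ k → k ≤ m → k ^ q ∉ F) (s : ℝ≥0) (hs : 0 < s)
    (hsum : ∑' p : ℕ × ℕ, (((((2 : ℝ≥0) * (1 / 2) ^ p.1) *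
      (1 / (((m : ℝ≥0) + 1 + p.2) ^ q) ^ 2) : ℝ≥0) : ℝ≥0∞)) ^ (s : ℝ) < 1) :
    dimH (J F) ≤ s := by
  have h1 : J F ⊆ JI F ∪ ⋃ N, JF N := by
    intro x hx
    by_cases h : ∀ N, ∃ n, N ≤ n ∧ digit x n ≠ 1
    · exact Or.inl ⟨hx, h⟩
    · push Not at h
      obtain ⟨N, hN⟩ := h
      exact Or.inr (mem_iUnion.2 ⟨N, hx.1, hx.2.1, hN⟩)
  refine (dimH_mono h1).trans ?_
  rw [dimH_union, dimH_countable (countable_iUnion JF_countable)]
  simpa using JI_upper hF hm s hs hsum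

end Pool.Agent.R453.DSp
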